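import Mathlib
import Pool.Agent.TP975.LR.Lr3

/-!
Large values of both signs of the sums of `λ(f(n))`, `n ≤ x`, for almost all polynomials `f` of large degree.
-/

set_option autoImplicit false

namespace Pool.Agent.Results.MP_a499ba_nt.OscillationAlongPolynomials

open Finset

/-- the Liouville function on the integers, `lam (-m) = lam m`, `lam 0 = 0` -/
noncomputable def lam (m : ℤ) : ℝ := if m = 0 then 0 else (-1) ^ ArithmeticFunction.cardFactors m.natAbs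

/-- the value at `t` of the polynomial with the coefficients `a 0, ..., a d` -/
def value {d : ℕ} (a : Fin (d + 1) → ℤ) (t : ℤ) : ℤ := ∑ c, a c * t ^ (c : ℕ)

/-- the polynomials of degree at most `d` with coefficients in `[-H, H]` -/
noncomputable def box (d H : ℕ) : Finset (Fin (d + 1) → ℤ) := Fintype.piFinset fun _ => Icc (-(H : ℤ)) H

/-- the summatory function of `lam (f n)` over `1 ≤ n ≤ x` -/
noncomputable def L {d : ℕ} (f : Fin (d + 1) → ℤ) (x : ℕ) : ℝ := ∑ n ∈ Icc 1 x, lam (value f (n : ℤ))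

open Classical in
/-- For every `K > 0` there is `D` such that for every degree `d ≥ D`, every `δ > 0` and every `x₀` there is `x₁` such that for all
large `H`, all but at most `δ #box` of the polynomials `f` of degree at most `d` have points `x, x'` in `[x₀, x₁]` with
`L f x ≥ K √x` and `L f x' ≤ -K √x'`. -/
theorem result (K : ℝ) (hK : 0 < K) : ∃ D : ℕ, ∀ d : ℕ, D ≤ d → ∀ δ : ℝ, 0 < δ → ∀ x₀ : ℕ, ∃ x₁ : ℕ, ∃ H₀ : ℕ,
    ∀ H : ℕ, H₀ ≤ H →
    (((box d H).filter (fun f => ¬ ((∃ x : ℕ, x₀ ≤ x ∧ x ≤ x₁ ∧ K * Real.sqrt x ≤ L f x) ∧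
      (∃ x : ℕ, x₀ ≤ x ∧ x ≤ x₁ ∧ L f x ≤ -(K * Real.sqrt x))))).card : ℝ) ≤ δ * (box d H).card := by
  obtain ⟨D, h0⟩ := Pool.Agent.TP975.LR.osc K hK
  refine ⟨D, fun d hd δ hδ x₀ => ?_⟩
  obtain ⟨x₁, H0, h1⟩ := h0 Pool.Agent.TP975.LR.lamI Pool.Agent.TP975.LR.winB_lamI
    (fun v hv => by
      unfold Pool.Agent.TP975.LR.lamI
      rw [if_neg hv]
      exact neg_one_pow_eq_or ℝ _) (by
      unfold Pool.Agent.TP975.LR.lamI
      rw [if_pos rfl]) d hd δ hδ x₀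
  refine ⟨x₁, H0, fun H hH => ?_⟩
  obtain ⟨Bad, _, hB, hall⟩ := h1 H hH
  refine le_trans ?_ hB
  have hsub : (box d H).filter (fun f => ¬ ((∃ x : ℕ, x₀ ≤ x ∧ x ≤ x₁ ∧ K * Real.sqrt x ≤ L f x) ∧
      (∃ x : ℕ, x₀ ≤ x ∧ x ≤ x₁ ∧ L f x ≤ -(K * Real.sqrt x)))) ⊆ Bad := by
    intro f hf
    rw [mem_filter] at hf
    by_contra hbad
    exact hf.2 (hall f hf.1 hbad)
  exact_mod_cast card_le_card hsub

end Pool.Agent.Results.MP_a499ba_nt.OscillationAlongPolynomials
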